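import Pool.Agent.H47.KS.Targets

/-!
MP_90d669_co, row CNY: values `b + h C2 g` with `|g| ≥ g0` in a short interval.
-/

set_option autoImplicit false

namespace Pool.Agent.H74.KSU

open Finset Pool.Agent.H47.KS

theorem two_C2_loc (z : ℤ) : 2 * C2 z = z * (z - 1) := by
  unfold C2
  have h : (2 : ℤ) ∣ z * (z - 1) := by
    have := Int.even_mul_succ_self (z - 1)
    rw [sub_add_cancel, mul_comm] at this
    exact this.two_dvd
  exact Int.mul_ediv_cancel' h

theorem C2_refl_loc (z : ℤ) : C2 (1 - z) = C2 z := by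
  have h1 := two_C2_loc z
  have h2 := two_C2_loc (1 - z)
  have h3 : (1 - z) * (1 - z - 1) = z * (z - 1) := by ring
  rw [h3] at h2
  omega

/-- row CNY -/
theorem pf_CNY : T_CNY := by
  classical
  intro g0 l b h z Y hg0 hh hY
  rcases Y.eq_empty_or_nonempty with hE | hE
  · subst hE
    simp
  have hex : ∀ y ∈ Y, ∃ g : ℤ, (g0 : ℤ) ≤ g ∧ y = b + h * C2 g := by
    intro y hy
    obtain ⟨-, -, g, hg, hyg⟩ := hY y hy
    by_cases hp : 0 < g
    · exact ⟨g, by rw [abs_of_pos hp] at hg; exact hg, hyg⟩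
    · refine ⟨1 - g, ?_, ?_⟩
      · rw [abs_of_nonpos (by omega)] at hg
        omega
      · rw [C2_refl_loc]
        exact hyg
  choose! γ hγ hyγ using hex
  have hinj : Set.InjOn γ (Y : Set ℤ) := by
    intro y hy y' hy' he
    rw [hyγ y hy, hyγ y' hy', he]
  have hcard : (Y.image γ).card = Y.card := card_image_of_injOn hinj
  have hne : (Y.image γ).Nonempty := hE.image γ
  obtain ⟨ya, hya, hea⟩ := mem_image.mp ((Y.image γ).min'_mem hne)
  obtain ⟨yc, hyc, hec⟩ := mem_image.mp ((Y.image γ).max'_mem hne)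
  have hsub : Y.image γ ⊆ Icc (γ ya) (γ yc) := by
    intro x hx
    rw [mem_Icc, hea, hec]
    exact ⟨(Y.image γ).min'_le x hx, (Y.image γ).le_max' x hx⟩
  have hle : γ ya ≤ γ yc := by
    rw [hea, hec]
    exact (Y.image γ).min'_le _ ((Y.image γ).max'_mem hne)
  have hc1 : Y.card ≤ (γ yc + 1 - γ ya).toNat := by
    have := card_le_card hsub
    rwa [hcard, Int.card_Icc] at this
  have hc2 : (Y.card : ℤ) ≤ γ yc + 1 - γ ya := by omega
  -- the difference of the two values
  have hd : |C2 (γ yc) - C2 (γ ya)| ≤ (l : ℤ) := by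
    obtain ⟨ha1, ha2, -⟩ := hY ya hya
    obtain ⟨hb1, hb2, -⟩ := hY yc hyc
    have e1 := hyγ ya hya
    have e2 := hyγ yc hyc
    rw [abs_le]
    rcases hh with hh | hh
    · rw [hh] at e1 e2
      constructor <;> linarith
    · rw [hh] at e1 e2
      constructor <;> linarith
  have hd2 := (abs_le.mp hd).2
  have hga := hγ ya hya
  have t1 := two_C2_loc (γ yc)
  have t2 := two_C2_loc (γ ya)
  have hmain : (g0 : ℤ) * (γ yc - γ ya) ≤ l := by
    rcases hle.eq_or_lt with he | hlt
    · rw [he, sub_self, mul_zero]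
      positivity
    · have h3 : (0 : ℤ) ≤ (γ yc - γ ya) * (γ yc + γ ya - 1 - 2 * g0) := by
        apply mul_nonneg <;> omega
      nlinarith [h3, hd2, t1, t2]
  have hfin : (Y.card : ℤ) * g0 ≤ 2 * l + 2 * g0 := by
    have h4 : (Y.card : ℤ) * g0 ≤ (γ yc + 1 - γ ya) * g0 :=
      mul_le_mul_of_nonneg_right hc2 (by positivity)
    have h5 : (0 : ℤ) ≤ g0 := by positivity
    have h6 : (0 : ℤ) ≤ l := by positivity
    nlinarith [h4, hmain, h5, h6]
  exact_mod_cast hfin

end Pool.Agent.H74.KSU
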